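import Pool.Agent.Helper50.Sparse.Count
import Pool.Agent.Helper50.Sparse.Kernel

/-!
# Boolean packings when the elements of corank two are small: definitions and simple counts
-/

set_option autoImplicit false
set_option linter.unusedSectionVars false

namespace Pool.Agent.Helper74.COL

open Pool.Agent.Helper28.BPack Pool.Agent.Helper50.Sparse Finset

variable {L : Type} [Lattice L] [BoundedOrder L] [Fintype L] [IsUpperModularLattice L]
variable {ι : Type} [Fintype ι]

/-- the elements of a box other than the bottom -/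
def InBox (c : ι → L) (F : L) {m : ℕ} (a : Fin m → ι) (q : L) : Prop :=
  ∃ S : Finset (Fin m), S.Nonempty ∧ F ⊔ S.sup (fun j => c (a j)) = q

/-- the bottoms of the boxes: elements of small rank, not `⊥`, not in the box of `a0` -/
def Cl (c : ι → L) {r : ℕ} (a0 : Fin r → ι) (F : L) : Prop :=
  F ≠ ⊥ ∧ 2 * rk F < r ∧ ¬ InBox c ⊥ a0 F

open Classical in
/-- the number of indices below an element -/
noncomputable def bel (c : ι → L) (x : L) : ℕ := (univ.filter (fun j : ι => c j ≤ x)).card

theorem inBox_rk {c : ι → L} (hc : ∀ j, IsAtom (c j)) {F : L} {m : ℕ} {a : Fin m → ι}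
    (ha : a ∈ good c m F) {q : L} (h : InBox c F a q) :
    F < q ∧ rk F < rk q ∧ rk q ≤ rk F + m := by
  obtain ⟨S, hS, hSq⟩ := h
  have h0 := mem_good.mp ha
  have hg : (⟨F, m, fun j => c (a j)⟩ : Pc L).Good :=
    good_of_rk (p := ⟨F, m, fun j => c (a j)⟩) (fun j => hc (a j)) h0
  have h1 := hg.rk_val S
  have h2 : rk q = rk F + S.card := by
    rw [← hSq]
    exact h1
  have h3 : 0 < S.card := hS.card_pos
  have h4 : S.card ≤ m := by
    have := Finset.card_le_univ S
    rwa [Fintype.card_fin] at this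
  refine ⟨lt_of_le_of_ne (by rw [← hSq]; exact le_sup_left) (fun h => ?_), by omega, by omega⟩
  rw [← h] at h2
  omega

/-- an element of the box with the rank of the top is the top -/
theorem inBox_top {c : ι → L} {F : L} {m : ℕ} {a : Fin m → ι}
    (ha : a ∈ good c m F) {q : L} (h : InBox c F a q) (hq : rk q = rk F + m) : q = jn c F a := by
  obtain ⟨S, -, hSq⟩ := h
  refine eq_of_le_of_rk ?_ ?_
  · rw [← hSq]
    exact sup_le_sup_left (Finset.sup_mono (Finset.subset_univ _)) _
  · rw [mem_good.mp ha, hq]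

theorem jn_inBox {c : ι → L} {F : L} {m : ℕ} (hm : 0 < m) (a : Fin m → ι) :
    InBox c F a (jn c F a) :=
  ⟨univ, ⟨⟨0, hm⟩, Finset.mem_univ _⟩, rfl⟩

theorem inBox_le {c : ι → L} {F : L} {m : ℕ} {a : Fin m → ι} {q : L} (h : InBox c F a q) :
    F ≤ q ∧ q ≤ jn c F a := by
  obtain ⟨S, -, rfl⟩ := h
  exact ⟨le_sup_left, sup_le_sup_left (Finset.sup_mono (Finset.subset_univ _)) _⟩

theorem le_jn {c : ι → L} {F : L} {m : ℕ} (a : Fin m → ι) (j : Fin m) : c (a j) ≤ jn c F a :=
  (Finset.le_sup (f := fun j => c (a j)) (Finset.mem_univ j)).trans le_sup_right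

open Classical in
theorem card_box_le {c : ι → L} (F : L) {m : ℕ} (a : Fin m → ι) :
    (univ.filter (fun q : L => InBox c F a q)).card ≤ 2 ^ m := by
  have h1 : univ.filter (fun q : L => InBox c F a q) ⊆
      (univ : Finset (Finset (Fin m))).image (fun S => F ⊔ S.sup (fun j => c (a j))) := by
    intro q hq
    obtain ⟨-, S, -, hS⟩ := Finset.mem_filter.mp hq
    exact Finset.mem_image.mpr ⟨S, Finset.mem_univ _, hS⟩
  refine (Finset.card_le_card h1).trans (Finset.card_image_le.trans ?_)
  rw [Finset.card_univ, Fintype.card_finset, Fintype.card_fin]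

open Classical in
/-- the number of independent sequences over `F`, if the elements of corank two are small -/
theorem card_good_low {c : ι → L} (hc : ∀ j, IsAtom (c j)) {D r : ℕ}
    (hD : ∀ x : L, rk x + 2 ≤ r → D ≤ (univ.filter (fun j : ι => ¬ c j ≤ x)).card) :
    ∀ (m : ℕ) (F : L), rk F + m + 1 ≤ r → D ^ m ≤ (good c m F).card := by
  intro m
  induction m with
  | zero =>
    intro F _
    have h1 : (Fin.elim0 : Fin 0 → ι) ∈ good c 0 F := by
      rw [mem_good]
      unfold jn
      simp
    have h2 : 0 < (good c 0 F).card := Finset.card_pos.mpr ⟨_, h1⟩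
    simpa using h2
  | succ m ih =>
    intro F hF
    set A : Finset ι := univ.filter (fun j : ι => ¬ c j ≤ F) with hA
    let T : Finset (Σ _ : ι, (Fin m → ι)) := A.sigma (fun a0 => good c m (F ⊔ c a0))
    have h1 : T.card ≤ (good c (m + 1) F).card := by
      apply Finset.card_le_card_of_injOn (fun x => (Fin.cons x.1 x.2 : Fin (m + 1) → ι))
      · rintro ⟨a0, a⟩ hx
        have hx' : a0 ∈ A ∧ a ∈ good c m (F ⊔ c a0) := Finset.mem_sigma.mp hx
        obtain ⟨h2, h3⟩ := hx'
        rw [hA, Finset.mem_filter] at h2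
        rw [mem_good] at h3
        change (Fin.cons a0 a : Fin (m + 1) → ι) ∈ (good c (m + 1) F : Set _)
        rw [Finset.mem_coe, mem_good, jn_cons, h3, rk_sup_atom (hc a0) h2.2]
        ring
      · rintro ⟨a0, a⟩ _ ⟨b0, b⟩ _ h
        have h2 : (Fin.cons a0 a : Fin (m + 1) → ι) = Fin.cons b0 b := h
        have h3 := Fin.cons_injective2 h2
        rw [h3.1, h3.2]
    have h2 : T.card = ∑ a0 ∈ A, (good c m (F ⊔ c a0)).card := Finset.card_sigma _ _
    have h3 : ∑ a0 ∈ A, D ^ m ≤ ∑ a0 ∈ A, (good c m (F ⊔ c a0)).card := by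
      apply Finset.sum_le_sum
      intro a0 ha0
      rw [hA, Finset.mem_filter] at ha0
      apply ih
      rw [rk_sup_atom (hc a0) ha0.2]
      omega
    rw [Finset.sum_const, smul_eq_mul] at h3
    have h4 : D ≤ A.card := hD F (by omega)
    calc D ^ (m + 1) = D * D ^ m := by ring
      _ ≤ A.card * D ^ m := Nat.mul_le_mul_right _ h4
      _ ≤ _ := h3
      _ = T.card := h2.symm
      _ ≤ _ := h1

open Classical in
/-- the number of elements below `q` -/
theorem card_below_le {c : ι → L} (hat : ∀ x y : L, (∀ j, c j ≤ x ↔ c j ≤ y) → x = y) (q : L) :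
    (univ.filter (fun F : L => F ≤ q)).card ≤ 2 ^ bel c q := by
  have h1 : (univ.filter (fun F : L => F ≤ q)).card ≤
      ((univ.filter (fun j : ι => c j ≤ q)).powerset).card := by
    apply Finset.card_le_card_of_injOn (fun F => univ.filter (fun j : ι => c j ≤ F))
    · intro F hF
      have hF' := (Finset.mem_filter.mp (Finset.mem_coe.mp hF)).2
      rw [Finset.mem_coe, Finset.mem_powerset]
      intro j hj
      exact Finset.mem_filter.mpr ⟨Finset.mem_univ _, (Finset.mem_filter.mp hj).2.trans hF'⟩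
    · intro F _ F' _ h
      apply hat
      intro j
      have h2 : j ∈ univ.filter (fun j : ι => c j ≤ F) ↔ j ∈ univ.filter (fun j : ι => c j ≤ F') := by
        have h' : univ.filter (fun j : ι => c j ≤ F) = univ.filter (fun j : ι => c j ≤ F') := h
        rw [h']
      simpa using h2
  rw [Finset.card_powerset] at h1
  exact h1

open Classical in
/-- the number of boxes over `F` through an element with few atoms -/
theorem card_hit_low {c : ι → L} (hc : ∀ j, IsAtom (c j)) {t : ℕ} (ht : 1 ≤ t) (m : ℕ) (F q : L)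
    (hq : bel c q ≤ t) :
    Fintype.card ι * ((good c m F).filter (fun a => InBox c F a q)).card ≤
      (2 * t) ^ m * (Fintype.card ι) ^ m := by
  by_cases he : ((good c m F).filter (fun a => InBox c F a q)).card = 0
  · rw [he]
    exact Nat.zero_le _
  obtain ⟨a, ha⟩ := Finset.card_pos.mp (Nat.pos_of_ne_zero he)
  obtain ⟨ha1, ha2⟩ := Finset.mem_filter.mp ha
  obtain ⟨-, h1, h2⟩ := inBox_rk hc ha1 ha2
  set n := Fintype.card ι with hn
  have h3 : ((good c m F).filter (fun a => InBox c F a q)).card ≤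
      m.choose (rk q - rk F) * (bel c q ^ (rk q - rk F) * n ^ (m - (rk q - rk F))) := by
    have h30 := card_hit c hc m F q
    unfold bel
    refine le_trans (Finset.card_le_card ?_) h30
    intro b hb
    obtain ⟨hb1, hb2⟩ := Finset.mem_filter.mp hb
    exact Finset.mem_filter.mpr ⟨hb1, hb2⟩
  obtain ⟨d, hd⟩ : ∃ d, rk q - rk F = d + 1 := ⟨rk q - rk F - 1, by omega⟩
  obtain ⟨e, he'⟩ : ∃ e, m = d + 1 + e := ⟨m - (d + 1), by omega⟩
  rw [hd] at h3
  have h4 : m - (d + 1) = e := by omega
  rw [h4] at h3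
  have h5 : m.choose (d + 1) ≤ 2 ^ m := Nat.choose_le_two_pow m (d + 1)
  have h6 : bel c q ^ (d + 1) ≤ t ^ m := by
    calc bel c q ^ (d + 1) ≤ t ^ (d + 1) := Nat.pow_le_pow_left hq _
      _ ≤ t ^ m := Nat.pow_le_pow_right ht (by omega)
  have h7 : n * n ^ e ≤ n ^ m := by
    rcases Nat.eq_zero_or_pos n with h0 | h0
    · rw [h0, zero_mul]
      exact Nat.zero_le _
    · calc n * n ^ e = n ^ (e + 1) := by ring
        _ ≤ n ^ m := Nat.pow_le_pow_right h0 (by omega)
  calc n * ((good c m F).filter (fun a => InBox c F a q)).card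
      ≤ n * (m.choose (d + 1) * (bel c q ^ (d + 1) * n ^ e)) := Nat.mul_le_mul_left _ h3
    _ = m.choose (d + 1) * bel c q ^ (d + 1) * (n * n ^ e) := by ring
    _ ≤ 2 ^ m * t ^ m * n ^ m := Nat.mul_le_mul (Nat.mul_le_mul h5 h6) h7
    _ = (2 * t) ^ m * n ^ m := by rw [mul_pow]

end Pool.Agent.Helper74.COL
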