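import Pool.Agent.Helper28.TW.Lift
import Pool.Agent.Helper50.TW.Lift

/-!
# Boolean packings of geometric lattices with small colines: from the bottom to any element
-/

set_option autoImplicit false
set_option linter.unusedSectionVars false

namespace Pool.Agent.Helper74.COL

open Pool.Agent.Helper28.BPack Pool.Agent.Helper19.TW

/-- The theorem on small colines over the bottom. -/
def Col : Prop :=
  ∀ (L : Type) [Lattice L] [BoundedOrder L] [Fintype L] [IsUpperModularLattice L],
    (∀ x : L, ∃ s : Finset L, (∀ a ∈ s, IsAtom a) ∧ s.sup id = x) →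
    ∀ r t : ℕ, 4 ≤ r → rk (⊤ : L) = r →
      (∀ x : L, rk x + 2 = r → {a : L | IsAtom a ∧ a ≤ x}.ncard ≤ t) →
      (16 * t) ^ (r ^ 2) ≤ {a : L | IsAtom a}.ncard → HasPack (⊥ : L)

variable {L : Type} [Lattice L] [BoundedOrder L] [Fintype L] [IsUpperModularLattice L]

theorem rk_Ici {f : L} [IsUpperModularLattice (Set.Ici f)] (z : Set.Ici f) :
    rk z + rk f = rk (z : L) := by
  have h1 := Pool.Agent.Helper28.TW.height_Ici (L := L) (e := f) z
  rw [← coe_rk (L := Set.Ici f)] at h1
  exact_mod_cast h1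

/-- **Small colines**, over any element. -/
theorem hasPack_over (col : Col)
    (hat : ∀ x : L, ∃ s : Finset L, (∀ a ∈ s, IsAtom a) ∧ s.sup id = x) {f : L} {R : ℕ}
    (hR : rk (⊤ : L) = rk f + R) (hr : 4 ≤ R) (t : ℕ)
    (ht : ∀ x : L, f ≤ x → rk x + 2 = rk (⊤ : L) → {u : L | f ⋖ u ∧ u ≤ x}.ncard ≤ t)
    (hn : (16 * t) ^ (R ^ 2) ≤ {u : L | f ⋖ u}.ncard) : HasPack f := by
  classical
  have hum := Pool.Agent.Helper50.TW.ici_um f
  have hatom : ∀ z : Set.Ici f, IsAtom z ↔ f ⋖ (z : L) := by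
    intro z
    rw [← bot_covBy_iff, Pool.Agent.Helper50.TW.ici_cov]
    rfl
  have hrt : rk (⊤ : Set.Ici f) = R := by
    have h1 := rk_Ici (⊤ : Set.Ici f)
    have h2 : ((⊤ : Set.Ici f) : L) = ⊤ := rfl
    rw [h2] at h1
    omega
  have hatI := Pool.Agent.Helper50.TW.ici_atomistic hat f
  have hpack : HasPack (⊥ : Set.Ici f) := by
    refine col (Set.Ici f) hatI R t hr hrt ?_ ?_
    · intro x hx
      have h1 := rk_Ici x
      refine le_trans ?_ (ht (x : L) x.2 (by omega))
      rw [← Set.ncard_image_of_injective {a : Set.Ici f | IsAtom a ∧ a ≤ x} Subtype.val_injective]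
      apply Set.ncard_le_ncard _ (Set.toFinite _)
      rintro _ ⟨a, ⟨ha, hax⟩, rfl⟩
      exact ⟨(hatom a).mp ha, hax⟩
    · refine hn.trans ?_
      rw [← Set.ncard_image_of_injective {a : Set.Ici f | IsAtom a} Subtype.val_injective]
      apply Set.ncard_le_ncard _ (Set.toFinite _)
      intro u hu
      exact ⟨⟨u, hu.le⟩, (hatom _).mpr hu, rfl⟩
  apply Pool.Agent.Helper28.TW.hasPack_of_Ici hat f
  exact hpack.to_packing

end Pool.Agent.Helper74.COL
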