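import Pool.Agent.Helper50.Sparse.UniformF
import Pool.Agent.Helper28.TW.Lift
import Pool.Agent.Helper50.TW.Lift

/-!
# Boolean packings of geometric lattices with small colines: reduction to a large hyperplane
-/

set_option autoImplicit false
set_option linter.unusedSectionVars false

namespace Pool.Agent.Helper74.COL

open Pool.Agent.Helper28.BPack Pool.Agent.Helper50.Sparse Pool.Agent.Helper19.TW Finset

/-- The large hyperplane case. -/
def Big : Prop :=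
  ∀ (L : Type) [Lattice L] [BoundedOrder L] [Fintype L] [IsUpperModularLattice L],
    (∀ x : L, ∃ s : Finset L, (∀ a ∈ s, IsAtom a) ∧ s.sup id = x) → 4 ≤ rk (⊤ : L) →
    ∀ t : ℕ, 1 ≤ t → (∀ x : L, rk x + 2 ≤ rk (⊤ : L) → {a : L | IsAtom a ∧ a ≤ x}.ncard ≤ t) →
      ∀ Q : L, IsCoatom Q →
        (∀ H : L, IsCoatom H →
          {a : L | IsAtom a ∧ a ≤ H}.ncard ≤ {a : L | IsAtom a ∧ a ≤ Q}.ncard) →
        (16 * t) ^ rk (⊤ : L) ≤ {a : L | IsAtom a ∧ a ≤ Q}.ncard → HasPack (⊥ : L)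

/-- numbers for the small hyperplane case -/
theorem num_small (r t : ℕ) (hr : 4 ≤ r) (ht : 1 ≤ t) :
    (16 * t) ^ r + 3 * 4 ^ r * ((16 * t) ^ r) ^ ((r + 1) / 2) ≤ (16 * t) ^ (r ^ 2) := by
  set T := (16 * t) ^ r with hT
  have h1 : (16 * t) ^ (r ^ 2) = T ^ r := by
    rw [hT, ← pow_mul, sq]
  have h16 : 16 ^ r ≤ T := by
    rw [hT]
    exact Nat.pow_le_pow_left (by omega) r
  have h4 : 3 * 4 ^ r ≤ 16 ^ r := by
    have h5 : (16 : ℕ) ^ r = 4 ^ r * 4 ^ r := by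
      rw [← mul_pow]
      norm_num
    rw [h5]
    apply Nat.mul_le_mul_right
    calc 3 ≤ 4 ^ 1 := by norm_num
      _ ≤ 4 ^ r := Nat.pow_le_pow_right (by norm_num) (by omega)
  have hT2 : 2 ≤ T := by
    have h5 : 16 ^ 1 ≤ 16 ^ r := Nat.pow_le_pow_right (by norm_num) (by omega)
    omega
  rw [h1]
  have h5 : 3 * 4 ^ r * T ^ ((r + 1) / 2) ≤ T ^ (r - 1) := by
    calc 3 * 4 ^ r * T ^ ((r + 1) / 2) ≤ T * T ^ ((r + 1) / 2) :=
          Nat.mul_le_mul_right _ (h4.trans h16)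
      _ = T ^ ((r + 1) / 2 + 1) := by ring
      _ ≤ T ^ (r - 1) := Nat.pow_le_pow_right (by omega) (by omega)
  have h6 : T ≤ T ^ (r - 1) := Nat.le_self_pow (by omega) T
  have h7 : T ^ r = T * T ^ (r - 1) := by
    rw [← pow_succ']
    congr 1
    omega
  rw [h7]
  have h8 : 2 * T ^ (r - 1) ≤ T * T ^ (r - 1) := Nat.mul_le_mul_right _ hT2
  omega

section

variable {L : Type} [Lattice L] [BoundedOrder L] [Fintype L] [IsUpperModularLattice L]

open Classical in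
theorem ncard_below (x : L) :
    (univ.filter (fun j : {u : L // (⊥ : L) ⋖ u} => j.1 ≤ x)).card =
      {a : L | IsAtom a ∧ a ≤ x}.ncard := by
  rw [← Finset.card_map (Function.Embedding.subtype _), ← Set.ncard_coe_finset]
  congr 1
  ext a
  rw [Finset.mem_coe, Finset.mem_map]
  constructor
  · rintro ⟨j, hj, rfl⟩
    exact ⟨bot_covBy_iff.mp j.2, (Finset.mem_filter.mp hj).2⟩
  · rintro ⟨h1, h2⟩
    exact ⟨⟨a, bot_covBy_iff.mpr h1⟩, Finset.mem_filter.mpr ⟨Finset.mem_univ _, h2⟩, rfl⟩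

open Classical in
theorem ncard_atoms :
    Fintype.card {u : L // (⊥ : L) ⋖ u} = {a : L | IsAtom a}.ncard := by
  rw [← Nat.card_coe_set_eq, Nat.card_eq_fintype_card]
  apply Fintype.card_congr
  exact Equiv.subtypeEquivRight (fun a => bot_covBy_iff)

/-- **Small colines**, over the bottom. -/
theorem hasPack_colines (big : Big)
    (hat : ∀ x : L, ∃ s : Finset L, (∀ a ∈ s, IsAtom a) ∧ s.sup id = x)
    (hr : 4 ≤ rk (⊤ : L)) (t : ℕ)
    (ht : ∀ x : L, rk x + 2 ≤ rk (⊤ : L) → {a : L | IsAtom a ∧ a ≤ x}.ncard ≤ t)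
    (hn : (16 * t) ^ (rk (⊤ : L) ^ 2) ≤ {a : L | IsAtom a}.ncard) : HasPack (⊥ : L) := by
  classical
  have hrb : rk (⊥ : L) = 0 := rk_bot
  have hbt : (⊥ : L) ≠ ⊤ := by
    intro h
    rw [← h, hrb] at hr
    omega
  have hco : ∀ x : L, x ≠ ⊤ → ∃ H : L, IsCoatom H ∧ x ≤ H := by
    intro x hx
    rcases IsCoatomic.eq_top_or_exists_le_coatom x with h1 | h1
    · exact absurd h1 hx
    · exact h1
  have ht1 : 1 ≤ t := by
    obtain ⟨a, ha, -⟩ := exists_atom hat (x := (⊥ : L)) (y := ⊤)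
      (fun h => hbt (le_bot_iff.mp h).symm)
    have h1 : rk a = 1 := by
      have := rk_covBy ha.bot_covBy
      omega
    refine le_trans ?_ (ht a (by omega))
    rw [Nat.one_le_iff_ne_zero, ← Nat.pos_iff_ne_zero, Set.ncard_pos (Set.toFinite _)]
    exact ⟨a, ha, le_rfl⟩
  obtain ⟨Q, hQ, hmax⟩ : ∃ Q : L, IsCoatom Q ∧ ∀ H : L, IsCoatom H →
      {a : L | IsAtom a ∧ a ≤ H}.ncard ≤ {a : L | IsAtom a ∧ a ≤ Q}.ncard := by
    obtain ⟨H, hH, -⟩ := hco ⊥ hbt
    obtain ⟨Q, hQ, hmax⟩ := Finset.exists_max_image (univ.filter (fun H : L => IsCoatom H))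
      (fun H => {a : L | IsAtom a ∧ a ≤ H}.ncard)
      ⟨H, Finset.mem_filter.mpr ⟨Finset.mem_univ _, hH⟩⟩
    exact ⟨Q, (Finset.mem_filter.mp hQ).2, fun H hH =>
      hmax H (Finset.mem_filter.mpr ⟨Finset.mem_univ _, hH⟩)⟩
  by_cases hbig : (16 * t) ^ rk (⊤ : L) ≤ {a : L | IsAtom a ∧ a ≤ Q}.ncard
  · exact big L hat hr t ht1 ht Q hQ hmax hbig
  · apply hasPack_uniformF hat (R := rk (⊤ : L)) (by rw [hrb, zero_add]) ((16 * t) ^ rk (⊤ : L))
    · intro x _ hx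
      obtain ⟨H, hH, hxH⟩ := hco x hx
      rw [ncard_below]
      have h1 : {a : L | IsAtom a ∧ a ≤ x}.ncard ≤ {a : L | IsAtom a ∧ a ≤ H}.ncard :=
        Set.ncard_le_ncard (fun a ha => ⟨ha.1, ha.2.trans hxH⟩) (Set.toFinite _)
      have h2 := hmax H hH
      omega
    · rw [ncard_atoms]
      exact (num_small _ t hr ht1).trans hn

/-- **Small colines**, over any element. -/
theorem hasPack_colinesF (big : Big)
    (hat : ∀ x : L, ∃ s : Finset L, (∀ a ∈ s, IsAtom a) ∧ s.sup id = x) {f : L} {R : ℕ}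
    (hR : rk (⊤ : L) = rk f + R) (hr : 4 ≤ R) (t : ℕ)
    (ht : ∀ x : L, f ≤ x → rk x + 2 ≤ rk (⊤ : L) → {u : L | f ⋖ u ∧ u ≤ x}.ncard ≤ t)
    (hn : (16 * t) ^ (R ^ 2) ≤ {u : L | f ⋖ u}.ncard) : HasPack f := by
  classical
  have hum := Pool.Agent.Helper50.TW.ici_um f
  have hrk : ∀ z : Set.Ici f, rk z + rk f = rk (z : L) := by
    intro z
    have h1 := Pool.Agent.Helper28.TW.height_Ici (L := L) (e := f) z
    rw [← coe_rk (L := Set.Ici f)] at h1
    exact_mod_cast h1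
  have hatom : ∀ z : Set.Ici f, IsAtom z ↔ f ⋖ (z : L) := by
    intro z
    rw [← bot_covBy_iff, Pool.Agent.Helper50.TW.ici_cov]
    rfl
  have hrt : rk (⊤ : Set.Ici f) = R := by
    have h1 := hrk ⊤
    have h2 : ((⊤ : Set.Ici f) : L) = ⊤ := rfl
    rw [h2] at h1
    omega
  have hatI := Pool.Agent.Helper50.TW.ici_atomistic hat f
  have hpack : HasPack (⊥ : Set.Ici f) := by
    refine hasPack_colines big hatI (by omega) t ?_ ?_
    · intro x hx
      have h1 := hrk x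
      refine le_trans ?_ (ht (x : L) x.2 (by omega))
      rw [← Set.ncard_image_of_injective {a : Set.Ici f | IsAtom a ∧ a ≤ x} Subtype.val_injective]
      apply Set.ncard_le_ncard _ (Set.toFinite _)
      rintro _ ⟨a, ⟨ha, hax⟩, rfl⟩
      exact ⟨(hatom a).mp ha, hax⟩
    · rw [hrt]
      refine hn.trans ?_
      rw [← Set.ncard_image_of_injective {a : Set.Ici f | IsAtom a} Subtype.val_injective]
      apply Set.ncard_le_ncard _ (Set.toFinite _)
      intro u hu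
      exact ⟨⟨u, hu.le⟩, (hatom _).mpr hu, rfl⟩
  apply Pool.Agent.Helper28.TW.hasPack_of_Ici hat f
  exact hpack.to_packing

end

end Pool.Agent.Helper74.COL
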